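import Pool.Agent.Lib.H36D.Defs

/-!
# H36D, chunk S2 (S/M): the number of unknowns, elementary facts on the index sets

PROOF. `card_piAntidiag`: `Finset.map_sym_eq_piAntidiag` (Mathlib, Algebra/Order/Antidiag/Pi) gives `card (piAntidiag univ J) = card (Sym (Fin r) J)`
(`Finset.card_map`), which is `multichoose r J = choose (r + J - 1) J` (`Sym.card_sym_eq_choose`/`Sym.card_sym_eq_multichoose`) `= choose (r+J-1) (r-1)`
(`Nat.choose_symm_of_eq_add`); then `Nat.pow_le_choose` (used in Lib/H53M/SA1.lean): `(n+1-s)^s / s! ≤ choose n s` with `n = r + J - 1`, `s = r - 1`.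
`card_Ix_ge`: `Finset.card_product`. `card_Ix_le`: `piAntidiag univ J ⊆ Fintype.piFinset (fun _ => range (J+1))`.
`mem_subs`, `sum_sub_subs`, `subs_card_le` (`Π (α_s + 1) ≤ Π 2^(α_s) = 2^J`), `bc_le` (`choose ≤ 2^(α_s)`: `Nat.choose_le_two_pow`).
-/

namespace H36D

open H53M PowerSeries Finset

theorem mem_Ix {r J W : ℕ} {t : (Fin r → ℕ) × ℕ} :
    t ∈ Ix r J W ↔ ∑ s, t.1 s = J ∧ t.2 ≤ W := by
  unfold Ix
  rw [Finset.mem_product, Finset.mem_piAntidiag, Finset.mem_range, Nat.lt_succ_iff]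
  constructor
  · rintro ⟨⟨h1, _⟩, h2⟩
    exact ⟨h1, h2⟩
  · rintro ⟨h1, h2⟩
    exact ⟨⟨h1, fun i _ => Finset.mem_univ i⟩, h2⟩

private theorem s2_card_pi (r J : ℕ) :
    (Finset.piAntidiag (Finset.univ : Finset (Fin r)) J).card = (r + J - 1).choose J := by
  rw [← Finset.map_sym_eq_piAntidiag, Finset.card_map, Finset.sym_univ, Finset.card_univ,
    Sym.card_sym_eq_choose, Fintype.card_fin]

theorem card_Ix_ge (r J W : ℕ) (hr : 1 ≤ r) :
    ((J : ℝ) + 1) ^ (r - 1) / ((r - 1).factorial : ℝ) * ((W : ℝ) + 1) ≤ ((Ix r J W).card : ℝ) := by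
  have h1 : (Ix r J W).card = (r + J - 1).choose J * (W + 1) := by
    unfold Ix
    rw [Finset.card_product, Finset.card_range, s2_card_pi]
  rw [h1]
  have h2 := Nat.pow_le_choose (α := ℝ) (r - 1) (r + J - 1)
  have h3 : r + J - 1 + 1 - (r - 1) = J + 1 := by omega
  have h4 : (r + J - 1).choose J = (r + J - 1).choose (r - 1) :=
    Nat.choose_symm_of_eq_add (by omega)
  rw [h3] at h2
  rw [h4]
  push_cast at h2 ⊢
  exact mul_le_mul_of_nonneg_right h2 (by positivity)

theorem card_Ix_le (r J W : ℕ) : (Ix r J W).card ≤ (J + 1) ^ r * (W + 1) := by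
  unfold Ix
  rw [Finset.card_product, Finset.card_range]
  refine Nat.mul_le_mul_right _ ?_
  have h1 : Finset.piAntidiag (Finset.univ : Finset (Fin r)) J ⊆
      Fintype.piFinset fun _ : Fin r => Finset.range (J + 1) := by
    intro f hf
    rw [Finset.mem_piAntidiag] at hf
    rw [Fintype.mem_piFinset]
    intro s
    rw [Finset.mem_range, Nat.lt_succ_iff, ← hf.1]
    exact Finset.single_le_sum (f := f) (fun _ _ => Nat.zero_le _) (Finset.mem_univ s)
  refine (Finset.card_le_card h1).trans ?_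
  rw [Fintype.card_piFinset]
  simp

theorem mem_subs {r : ℕ} {al be : Fin r → ℕ} : be ∈ subs al ↔ ∀ s, be s ≤ al s := by
  unfold subs
  rw [Fintype.mem_piFinset]
  simp only [Finset.mem_range, Nat.lt_succ_iff]

theorem sum_sub_subs {r : ℕ} {al be : Fin r → ℕ} (h : be ∈ subs al) :
    ∑ s, (al - be) s + ∑ s, be s = ∑ s, al s := by
  rw [← Finset.sum_add_distrib]
  refine Finset.sum_congr rfl fun s _ => ?_
  rw [Pi.sub_apply]
  exact Nat.sub_add_cancel (mem_subs.mp h s)

theorem subs_card_le {r : ℕ} (al : Fin r → ℕ) : (subs al).card ≤ 2 ^ (∑ s, al s) := by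
  unfold subs
  rw [Fintype.card_piFinset, ← Finset.prod_pow_eq_pow_sum]
  refine Finset.prod_le_prod (fun _ _ => Nat.zero_le _) fun s _ => ?_
  rw [Finset.card_range]
  exact Nat.lt_two_pow_self

theorem bc_le {r : ℕ} (al be : Fin r → ℕ) : bc al be ≤ 2 ^ (∑ s, al s) := by
  unfold bc
  rw [← Finset.prod_pow_eq_pow_sum]
  exact Finset.prod_le_prod (fun _ _ => Nat.zero_le _) fun s _ => Nat.choose_le_two_pow _ _

end H36D
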