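import Pool.Agent.Lib.H53M.S0

/-!
# H36D: definitions for Theorem D, part (S) (Siegel's lemma, growth)

`h : Fin r → ℚ[[q]]` are the series `h(q^(d_s))`. The auxiliary function is
`F(q,z,b) = Σ_t x(t) Lv(W,i)(q) Π_s (h_s(q) - b h_s(z))^(α_s)`, `t = (α, i)`, `|α| = J`, `i ≤ W`;
`gg h J W x n j l` is its coefficient of `q^n z^j b^l`, `Ah h J W x` is `A(h) = F(q,0,0)`.
-/

namespace H36D

open H53M PowerSeries Finset

/-- The monomial `Π_s h_s^(g_s)`. -/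
noncomputable def Hm {r : ℕ} {R : Type*} [CommSemiring R] (h : Fin r → PowerSeries R)
    (g : Fin r → ℕ) : PowerSeries R := ∏ s, h s ^ g s

/-- The indices of the unknowns: multi-indices of degree `J`, and `i ≤ W`. -/
def Ix (r J W : ℕ) : Finset ((Fin r → ℕ) × ℕ) :=
  (Finset.piAntidiag (Finset.univ : Finset (Fin r)) J) ×ˢ Finset.range (W + 1)

/-- The basis `Δ^i E₄^(3(W-i))` of the forms of level one and weight `12 W`. -/
noncomputable def Lv (W i : ℕ) : PowerSeries ℤ := dl ^ i * e4 ^ (3 * (W - i))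

/-- The multi-indices `≤ al`. -/
def subs {r : ℕ} (al : Fin r → ℕ) : Finset (Fin r → ℕ) :=
  Fintype.piFinset fun s => Finset.range (al s + 1)

/-- The product of the binomial coefficients. -/
def bc {r : ℕ} (al be : Fin r → ℕ) : ℕ := ∏ s, (al s).choose (be s)

/-- The coefficient of `q^n z^j b^l` in `Lv(W,i)(q) Π_s (h_s(q) - b h_s(z))^(α_s)`, `t = (α, i)`. -/
noncomputable def gc {r : ℕ} (h : Fin r → PowerSeries ℚ) (W n j l : ℕ)
    (t : (Fin r → ℕ) × ℕ) : ℚ :=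
  ∑ be ∈ (subs t.1).filter (fun be => ∑ s, be s = l),
    (-1) ^ l * (bc t.1 be : ℚ) * (coeff j (Hm h be) * coeff n (toQ (Lv W t.2) * Hm h (t.1 - be)))

/-- The coefficient of `q^n z^j b^l` in the auxiliary function. -/
noncomputable def gg {r : ℕ} (h : Fin r → PowerSeries ℚ) (J W : ℕ)
    (x : (Fin r → ℕ) × ℕ → ℤ) (n j l : ℕ) : ℚ :=
  ∑ t ∈ Ix r J W, (x t : ℚ) * gc h W n j l t

/-- `A(h) = Σ_t x(t) Lv(W,i) h^α`. -/
noncomputable def Ah {r : ℕ} (h : Fin r → PowerSeries ℚ) (J W : ℕ)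
    (x : (Fin r → ℕ) × ℕ → ℤ) : PowerSeries ℚ :=
  ∑ t ∈ Ix r J W, (x t : ℚ) • (toQ (Lv W t.2) * Hm h t.1)

/-- Growth and denominators of the series `h_s`. -/
structure Hyp {r : ℕ} (h : Fin r → PowerSeries ℚ) (C : ℝ) (κ : ℕ) (D : ℕ → ℕ) : Prop where
  /-- growth -/
  growth : ∀ s n, |((coeff n (h s) : ℚ) : ℝ)| ≤ C * ((n : ℝ) + 1) ^ κ
  /-- no constant term -/
  zero : ∀ s, coeff 0 (h s) = 0
  /-- positivity -/
  pos : ∀ n, 0 < D n
  /-- divisibility -/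
  dvd : ∀ n, D n ∣ D (n + 1)
  /-- common denominators -/
  den : ∀ s n, ∃ z : ℤ, (D n : ℚ) * coeff n (h s) = z

end H36D
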