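import Pool.Agent.Lib.H36D.Defs
import Pool.Agent.Lib.H53M.SD

/-!
# H36D, chunk S1 (S/M): Siegel's lemma for a finite set of conditions, primitive solution

PROOF. `siegel_fin0`: enumerate `Q` by `Q.equivFin` and use `H53M.SD_siegel` (Lib/H53M/SD.lean) with `T = Q.card` and
`f' n t = f (Q.equivFin.symm ⟨n, _⟩) t` for `n < Q.card` (and `0` otherwise).
`prim`: strong induction on `N = Σ_{t ∈ S} (x t).natAbs`: if `p` divides all `x t`, `t ∈ S`, pass to `y t = x t / p`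
(`|y t| ≤ |x t|`, the sum decreases strictly because some `x t ≠ 0`, the equations persist since `x t = p * y t` on `S`).
`siegel_fin`: combine.
-/

namespace H36D

open H53M PowerSeries Finset

theorem siegel_fin0 {ι κ : Type*} [DecidableEq ι] (S : Finset ι) (Q : Finset κ)
    (hQ : 1 ≤ Q.card) (hQS : 2 * Q.card ≤ S.card) (f : κ → ι → ℚ) (R : ℕ) (hR : 0 < R)
    (E : ℝ) (hE : 1 ≤ E)
    (hint : ∀ c ∈ Q, ∀ t ∈ S, ∃ z : ℤ, (R : ℚ) * f c t = z)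
    (hb : ∀ c ∈ Q, ∀ t ∈ S, |((f c t : ℚ) : ℝ)| ≤ E) :
    ∃ x : ι → ℤ, (∃ t ∈ S, x t ≠ 0) ∧ (∀ t, |(x t : ℝ)| ≤ S.card * ((R : ℝ) * E)) ∧
      ∀ c ∈ Q, ∑ t ∈ S, (x t : ℚ) * f c t = 0 := by
  have hf : ∀ n (h : n < Q.card), ((Q.equivFin.symm ⟨n, h⟩ : Q) : κ) ∈ Q := fun n h =>
    (Q.equivFin.symm ⟨n, h⟩).2
  obtain ⟨f', hf'⟩ : ∃ f' : ℕ → ι → ℚ, ∀ n (h : n < Q.card) t,
      f' n t = f ((Q.equivFin.symm ⟨n, h⟩ : Q) : κ) t :=
    ⟨fun n t => if h : n < Q.card then f ((Q.equivFin.symm ⟨n, h⟩ : Q) : κ) t else 0,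
      fun n h t => by simp [h]⟩
  obtain ⟨x, h0, hB, hx⟩ := SD_siegel S Q.card hQ hQS f' R hR E hE
    (fun n hn t ht => by
      rw [hf' n hn]
      exact hint _ (hf n hn) t ht)
    (fun n hn t ht => by
      rw [hf' n hn]
      exact hb _ (hf n hn) t ht)
  refine ⟨x, h0, hB, fun c hc => ?_⟩
  have h1 := hx (Q.equivFin ⟨c, hc⟩).1 (Q.equivFin ⟨c, hc⟩).2
  rw [← h1]
  refine Finset.sum_congr rfl fun t _ => ?_
  rw [hf' _ (Q.equivFin ⟨c, hc⟩).2]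
  have h2 : Q.equivFin.symm ⟨(Q.equivFin ⟨c, hc⟩).1, (Q.equivFin ⟨c, hc⟩).2⟩ = ⟨c, hc⟩ := by
    rw [Fin.eta, Equiv.symm_apply_apply]
  rw [h2]

private theorem prim_aux {ι κ : Type*} [DecidableEq ι] (S : Finset ι) (Q : Finset κ)
    (f : κ → ι → ℚ) (B : ℝ) (p : ℕ) (hp : p.Prime) : ∀ (N : ℕ) (x : ι → ℤ),
    ∑ t ∈ S, (x t).natAbs ≤ N → (∃ t ∈ S, x t ≠ 0) → (∀ t, |(x t : ℝ)| ≤ B) →
    (∀ c ∈ Q, ∑ t ∈ S, (x t : ℚ) * f c t = 0) →
    ∃ y : ι → ℤ, (∃ t ∈ S, ¬ (p : ℤ) ∣ y t) ∧ (∀ t, |(y t : ℝ)| ≤ B) ∧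
      ∀ c ∈ Q, ∑ t ∈ S, (y t : ℚ) * f c t = 0 := by
  intro N
  induction N with
  | zero =>
    intro x hN h0 _ _
    exfalso
    obtain ⟨t, ht, hxt⟩ := h0
    have h1 : (x t).natAbs ≤ ∑ t ∈ S, (x t).natAbs :=
      Finset.single_le_sum (f := fun t => (x t).natAbs) (fun _ _ => Nat.zero_le _) ht
    have h2 : (x t).natAbs = 0 := by omega
    exact hxt (Int.natAbs_eq_zero.mp h2)
  | succ N ih =>
    intro x hN h0 hB hx
    by_cases hcase : ∃ t ∈ S, ¬ (p : ℤ) ∣ x t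
    · exact ⟨x, hcase, hB, hx⟩
    have hdiv : ∀ t ∈ S, (p : ℤ) ∣ x t := by
      intro t ht
      by_contra h
      exact hcase ⟨t, ht, h⟩
    obtain ⟨y, hy1, hy2⟩ : ∃ y : ι → ℤ, (∀ t ∈ S, x t = p * y t) ∧ ∀ t, t ∉ S → y t = 0 := by
      refine ⟨fun t => if t ∈ S then x t / p else 0, fun t ht => ?_, fun t ht => ?_⟩
      · simp only [ht, if_true]
        exact (Int.mul_ediv_cancel' (hdiv t ht)).symm
      · simp only [ht, if_false]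
    have hp2 : 2 ≤ p := hp.two_le
    have hnat : ∀ t ∈ S, (x t).natAbs = p * (y t).natAbs := by
      intro t ht
      rw [hy1 t ht, Int.natAbs_mul, Int.natAbs_natCast]
    refine ih y ?_ ?_ ?_ ?_
    · have h1 : ∑ t ∈ S, (x t).natAbs = p * ∑ t ∈ S, (y t).natAbs := by
        rw [Finset.mul_sum]
        exact Finset.sum_congr rfl hnat
      have h2 : 0 < ∑ t ∈ S, (y t).natAbs := by
        obtain ⟨t, ht, hxt⟩ := h0
        have h3 : (y t).natAbs ≤ ∑ t ∈ S, (y t).natAbs :=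
          Finset.single_le_sum (f := fun t => (y t).natAbs) (fun _ _ => Nat.zero_le _) ht
        have h4 : (y t).natAbs ≠ 0 := by
          intro h5
          have h6 : y t = 0 := Int.natAbs_eq_zero.mp h5
          apply hxt
          rw [hy1 t ht, h6, mul_zero]
        omega
      have h3 : 2 * ∑ t ∈ S, (y t).natAbs ≤ p * ∑ t ∈ S, (y t).natAbs :=
        Nat.mul_le_mul_right _ hp2
      omega
    · obtain ⟨t, ht, hxt⟩ := h0
      refine ⟨t, ht, fun h => hxt ?_⟩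
      rw [hy1 t ht, h, mul_zero]
    · intro t
      by_cases ht : t ∈ S
      · refine le_trans ?_ (hB t)
        rw [hy1 t ht]
        push_cast
        rw [abs_mul]
        have h1 : (1 : ℝ) ≤ |(p : ℝ)| := by
          rw [abs_of_nonneg (by positivity)]
          exact_mod_cast hp.one_lt.le
        nlinarith [abs_nonneg (y t : ℝ)]
      · rw [hy2 t ht]
        simp only [Int.cast_zero, abs_zero]
        exact (abs_nonneg _).trans (hB t)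
    · intro c hc
      have h1 := hx c hc
      have h2 : ∑ t ∈ S, (x t : ℚ) * f c t = (p : ℚ) * ∑ t ∈ S, (y t : ℚ) * f c t := by
        rw [Finset.mul_sum]
        refine Finset.sum_congr rfl fun t ht => ?_
        rw [hy1 t ht]
        push_cast
        ring
      rw [h2] at h1
      have h3 : (p : ℚ) ≠ 0 := by exact_mod_cast hp.ne_zero
      rcases mul_eq_zero.mp h1 with h4 | h4
      · exact absurd h4 h3
      · exact h4

theorem prim {ι κ : Type*} [DecidableEq ι] (S : Finset ι) (Q : Finset κ) (f : κ → ι → ℚ)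
    (B : ℝ) (p : ℕ) (hp : p.Prime) (x : ι → ℤ) (h0 : ∃ t ∈ S, x t ≠ 0)
    (hB : ∀ t, |(x t : ℝ)| ≤ B) (hx : ∀ c ∈ Q, ∑ t ∈ S, (x t : ℚ) * f c t = 0) :
    ∃ y : ι → ℤ, (∃ t ∈ S, ¬ (p : ℤ) ∣ y t) ∧ (∀ t, |(y t : ℝ)| ≤ B) ∧
      ∀ c ∈ Q, ∑ t ∈ S, (y t : ℚ) * f c t = 0 := by
  exact prim_aux S Q f B p hp _ x le_rfl h0 hB hx

theorem siegel_fin {ι κ : Type*} [DecidableEq ι] (S : Finset ι) (Q : Finset κ)
    (hQ : 1 ≤ Q.card) (hQS : 2 * Q.card ≤ S.card) (f : κ → ι → ℚ) (R : ℕ) (hR : 0 < R)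
    (E : ℝ) (hE : 1 ≤ E)
    (hint : ∀ c ∈ Q, ∀ t ∈ S, ∃ z : ℤ, (R : ℚ) * f c t = z)
    (hb : ∀ c ∈ Q, ∀ t ∈ S, |((f c t : ℚ) : ℝ)| ≤ E) (p : ℕ) (hp : p.Prime) :
    ∃ x : ι → ℤ, (∃ t ∈ S, ¬ (p : ℤ) ∣ x t) ∧ (∀ t, |(x t : ℝ)| ≤ S.card * ((R : ℝ) * E)) ∧
      ∀ c ∈ Q, ∑ t ∈ S, (x t : ℚ) * f c t = 0 := by
  obtain ⟨x, h0, hB, hx⟩ := siegel_fin0 S Q hQ hQS f R hR E hE hint hb
  exact prim S Q f _ p hp x h0 hB hx

end H36D
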