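import Pool.Agent.Lib.H36D.S2
import Pool.Agent.Lib.H53M.SA4

/-!
# H36D, chunk S3 (M): growth of the coefficients

PROOF. Compare `H53M.Ft_bound` (Lib/H53M/SA4.lean). `Maj_base` for `h s` (`d₁ = κ+1`, constant `C κ!`), `Maj_e` for `e4`, `dl`
(take a common `d ≥ 1` and a common `K ≥ 1` by `Maj_mono`). `Maj_Hm`: `Maj_mul`, `Maj_pow` over `Finset.univ` (product of powers): `Hm h g` is majorised by
`K^(Σ g) (1-X)^(-d Σ g)`. `toQ (Lv W i)` is a product of `i + 3 (W - i) ≤ 3 W` factors (`i ≤ W`). So the coefficient `n` of `toQ (Lv W i) * Hm h (al - be)`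
is at most `K^(3 W + J) m(n)`, `m` the coefficient of `(1-X)^(-3 d (W + J))`, and `m_le_exp (3 d) (W+J) n` with `n/(W+J) ≤ n/W`; `K^(3W+J) ≤ exp (2 (3W+J) log K log (2+n/W))` by `SA2_log`.
The coefficient `j` of `Hm h be` is at most `K^J` times the coefficient of `(1-X)^(-dJ)`: `m_le_exp d J j`, `j/J ≤ j`. The number of `be` is at most `2^J`, `bc ≤ 2^J`
(chunk S2), `4^J ≤ exp (4 J log (2+j))`. Everything is monotone, choose `C4` as the sum of all the constants.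
-/

namespace H36D

open H53M PowerSeries Finset

theorem Maj_Hm {r : ℕ} (h : Fin r → PowerSeries ℚ) (d : ℕ) (K : ℝ) (hK : 1 ≤ K)
    (hh : ∀ s, Maj d K (h s)) (g : Fin r → ℕ) :
    Maj ((∑ s, g s) * d) (K ^ (∑ s, g s)) (Hm h g) := by
  have key : ∀ A : Finset (Fin r), Maj ((∑ s ∈ A, g s) * d) (K ^ (∑ s ∈ A, g s))
      (∏ s ∈ A, h s ^ g s) := by
    intro A
    induction A using Finset.induction_on with
    | empty =>
      rw [Finset.sum_empty, Finset.prod_empty, Nat.zero_mul, pow_zero]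
      exact Maj_one
    | insert a A ha ih =>
      rw [Finset.sum_insert ha, Finset.prod_insert ha, add_mul, pow_add]
      exact Maj_mul (pow_nonneg (by linarith) _) (Maj_pow (by linarith) (hh a) _) ih
  exact key Finset.univ

private theorem S3_pow (K : ℝ) (hK : 1 ≤ K) (M : ℕ) (x : ℝ) (hx : 0 ≤ x) :
    K ^ M ≤ Real.exp (2 * M * Real.log K * Real.log (2 + x)) := by
  have h8 : K ^ M = Real.exp ((M : ℝ) * Real.log K) := by
    rw [Real.exp_nat_mul, Real.exp_log (by linarith)]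
  rw [h8]
  apply Real.exp_le_exp.2
  have h9 := SA2_log x hx
  have h10 : 0 ≤ (M : ℝ) * Real.log K := mul_nonneg (Nat.cast_nonneg M) (Real.log_nonneg hK)
  nlinarith

private theorem S3_one {r : ℕ} (h : Fin r → PowerSeries ℚ) (d : ℕ) (hd : 1 ≤ d) (K : ℝ)
    (hK : 1 ≤ K) (hh : ∀ s, Maj d K (h s)) (be : Fin r → ℕ) (J : ℕ) (hJ : 1 ≤ J)
    (hbe : ∑ s, be s ≤ J) (j : ℕ) :
    |((coeff j (Hm h be) : ℚ) : ℝ)| ≤
      Real.exp ((3 * d + 2 * Real.log K) * J * Real.log (2 + (j : ℝ))) := by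
  have h1 := Maj_mono (pow_nonneg (by linarith) _) (Nat.mul_le_mul_right d hbe)
    (pow_le_pow_right₀ hK hbe) (Maj_Hm h d K hK hh be)
  refine (h1 j).trans ?_
  rw [Nat.mul_comm J d]
  have h2 := m_le_exp d J j hd hJ
  have hJ1 : (1 : ℝ) ≤ J := by exact_mod_cast hJ
  have hj0 : (0 : ℝ) ≤ j := Nat.cast_nonneg j
  have h3 : Real.log (2 + (j : ℝ) / J) ≤ Real.log (2 + (j : ℝ)) := by
    apply Real.log_le_log (by positivity)
    have := div_le_self hj0 hJ1
    linarith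
  have h4 := S3_pow K hK J j hj0
  calc K ^ J * coeff j ((invOneSubPow ℝ (d * J)).val)
      ≤ Real.exp (2 * J * Real.log K * Real.log (2 + (j : ℝ))) *
        Real.exp (3 * d * J * Real.log (2 + (j : ℝ))) := by
        refine mul_le_mul h4 (h2.trans (Real.exp_le_exp.2 ?_)) (m_nonneg _ _) (Real.exp_pos _).le
        exact mul_le_mul_of_nonneg_left h3 (by positivity)
    _ = _ := by
        rw [← Real.exp_add]
        congr 1
        ring

private theorem S3_two {r : ℕ} (h : Fin r → PowerSeries ℚ) (d : ℕ) (hd : 1 ≤ d) (K : ℝ)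
    (hK : 1 ≤ K) (hh : ∀ s, Maj d K (h s)) (h4 : Maj d K (toQ e4)) (hdl : Maj d K (toQ dl))
    (be : Fin r → ℕ) (J W i : ℕ) (hW : 1 ≤ W) (hi : i ≤ W) (hbe : ∑ s, be s ≤ J) (n : ℕ) :
    |((coeff n (toQ (Lv W i) * Hm h be) : ℚ) : ℝ)| ≤
      Real.exp ((9 * d + 6 * Real.log K) * ((W : ℝ) + J) * Real.log (2 + (n : ℝ) / W)) := by
  have hK0 : 0 ≤ K := by linarith
  have h1 : Maj ((i + 3 * (W - i) + ∑ s, be s) * d) (K ^ (i + 3 * (W - i) + ∑ s, be s))
      (toQ (Lv W i) * Hm h be) := by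
    unfold Lv
    rw [map_mul, map_pow, map_pow, add_mul, add_mul, pow_add, pow_add]
    exact Maj_mul (mul_nonneg (pow_nonneg hK0 _) (pow_nonneg hK0 _))
      (Maj_mul (pow_nonneg hK0 _) (Maj_pow hK0 hdl _) (Maj_pow hK0 h4 _))
      (Maj_Hm h d K hK hh be)
  have hM : i + 3 * (W - i) + ∑ s, be s ≤ 3 * (W + J) := by omega
  have h2 := Maj_mono (pow_nonneg hK0 _) (Nat.mul_le_mul_right d hM)
    (pow_le_pow_right₀ hK hM) h1
  refine (h2 n).trans ?_
  have e1 : 3 * (W + J) * d = (3 * d) * (W + J) := by ring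
  rw [e1]
  have h3 := m_le_exp (3 * d) (W + J) n (by omega) (by omega)
  have hW1 : (1 : ℝ) ≤ W := by exact_mod_cast hW
  have hn0 : (0 : ℝ) ≤ n := Nat.cast_nonneg n
  have hJ0 : (0 : ℝ) ≤ J := Nat.cast_nonneg J
  have h5 : Real.log (2 + (n : ℝ) / ((W + J : ℕ) : ℝ)) ≤ Real.log (2 + (n : ℝ) / W) := by
    apply Real.log_le_log (by positivity)
    have : (n : ℝ) / ((W + J : ℕ) : ℝ) ≤ (n : ℝ) / W := by
      apply div_le_div_of_nonneg_left hn0 (by linarith)
      push_cast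
      linarith
    linarith
  have h6 := S3_pow K hK (3 * (W + J)) ((n : ℝ) / W) (by positivity)
  calc K ^ (3 * (W + J)) * coeff n ((invOneSubPow ℝ (3 * d * (W + J))).val)
      ≤ Real.exp (2 * ((3 * (W + J) : ℕ) : ℝ) * Real.log K * Real.log (2 + (n : ℝ) / W)) *
        Real.exp (3 * ((3 * d : ℕ) : ℝ) * ((W + J : ℕ) : ℝ) * Real.log (2 + (n : ℝ) / W)) := by
        refine mul_le_mul h6 (h3.trans (Real.exp_le_exp.2 ?_)) (m_nonneg _ _) (Real.exp_pos _).le
        exact mul_le_mul_of_nonneg_left h5 (by positivity)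
    _ = _ := by
        rw [← Real.exp_add]
        congr 1
        push_cast
        ring

theorem gc_bound (r : ℕ) (C : ℝ) (κ : ℕ) : ∃ C4 : ℝ, 1 ≤ C4 ∧
    ∀ (h : Fin r → PowerSeries ℚ),
      (∀ s n, |((coeff n (h s) : ℚ) : ℝ)| ≤ C * ((n : ℝ) + 1) ^ κ) →
      ∀ J W : ℕ, 1 ≤ J → 1 ≤ W → ∀ t ∈ Ix r J W, ∀ n j l : ℕ,
        |((gc h W n j l t : ℚ) : ℝ)| ≤
          Real.exp (C4 * ((W : ℝ) + J) * Real.log (2 + (n : ℝ) / W) +
            C4 * J * Real.log (2 + (j : ℝ))) := by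
  obtain ⟨d, K, hd, hK, h2, h4, hdl⟩ := Maj_e
  obtain ⟨d0, hd0⟩ : ∃ d0 : ℕ, d0 = d + (κ + 1) := ⟨_, rfl⟩
  obtain ⟨K0, hK0⟩ : ∃ K0 : ℝ, K0 = K + |C| * (κ.factorial : ℝ) := ⟨_, rfl⟩
  have hCf : 0 ≤ |C| * (κ.factorial : ℝ) := by positivity
  have hK01 : 1 ≤ K0 := by rw [hK0]; linarith
  have e4' : Maj d0 K0 (toQ e4) := Maj_mono (by linarith) (by omega) (by rw [hK0]; linarith) h4
  have edl' : Maj d0 K0 (toQ dl) := Maj_mono (by linarith) (by omega) (by rw [hK0]; linarith) hdl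
  have hd01 : 1 ≤ d0 := by omega
  have hd01' : (1 : ℝ) ≤ d0 := by exact_mod_cast hd01
  have hlK : 0 ≤ Real.log K0 := Real.log_nonneg hK01
  refine ⟨9 * d0 + 6 * Real.log K0 + 6, by linarith, fun h hC J W hJ hW t ht n j l => ?_⟩
  have hh : ∀ s, Maj d0 K0 (h s) := by
    intro s
    have h1 : Maj (κ + 1) (|C| * (κ.factorial : ℝ)) (h s) := by
      refine Maj_base (abs_nonneg C) fun m => (hC s m).trans ?_
      exact mul_le_mul_of_nonneg_right (le_abs_self C) (by positivity)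
    exact Maj_mono hCf (by omega) (by rw [hK0]; linarith) h1
  obtain ⟨hJ1, hi⟩ := mem_Ix.1 ht
  have hn0 : (0 : ℝ) ≤ (n : ℝ) / W := by positivity
  have hj0 : (0 : ℝ) ≤ j := Nat.cast_nonneg j
  have hJr : (1 : ℝ) ≤ J := by exact_mod_cast hJ
  have hWr : (1 : ℝ) ≤ W := by exact_mod_cast hW
  have hln : 1 ≤ 2 * Real.log (2 + (n : ℝ) / W) := SA2_log _ hn0
  have hlj : 1 ≤ 2 * Real.log (2 + (j : ℝ)) := SA2_log _ hj0
  obtain ⟨A, hA⟩ : ∃ A : ℝ, A = (3 * d0 + 2 * Real.log K0) * J * Real.log (2 + (j : ℝ)) :=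
    ⟨_, rfl⟩
  obtain ⟨B, hB⟩ : ∃ B : ℝ, B = (9 * d0 + 6 * Real.log K0) * ((W : ℝ) + J) *
    Real.log (2 + (n : ℝ) / W) := ⟨_, rfl⟩
  have hterm : ∀ be ∈ (subs t.1).filter (fun be => ∑ s, be s = l),
      |(((-1) ^ l * (bc t.1 be : ℚ) * (coeff j (Hm h be) *
        coeff n (toQ (Lv W t.2) * Hm h (t.1 - be))) : ℚ) : ℝ)| ≤
      2 ^ J * (Real.exp A * Real.exp B) := by
    intro be hbe
    have hbs := (Finset.mem_filter.1 hbe).1
    have hs := sum_sub_subs hbs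
    have hb1 : ∑ s, be s ≤ J := by omega
    have hb2 : ∑ s, (t.1 - be) s ≤ J := by omega
    push_cast
    rw [abs_mul, abs_mul, abs_mul, abs_pow, abs_neg, abs_one, one_pow, one_mul]
    have hbc : |((bc t.1 be : ℕ) : ℝ)| ≤ 2 ^ J := by
      rw [abs_of_nonneg (Nat.cast_nonneg _)]
      have := bc_le t.1 be
      rw [hJ1] at this
      exact_mod_cast this
    refine mul_le_mul hbc ?_ (by positivity) (by positivity)
    refine mul_le_mul ?_ ?_ (abs_nonneg _) (Real.exp_pos _).le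
    · rw [hA]
      exact S3_one h d0 hd01 K0 hK01 hh be J hJ hb1 j
    · rw [hB]
      exact S3_two h d0 hd01 K0 hK01 hh e4' edl' (t.1 - be) J W t.2 hW hi hb2 n
  unfold gc
  rw [Rat.cast_sum]
  refine (Finset.abs_sum_le_sum_abs _ _).trans ((Finset.sum_le_sum hterm).trans ?_)
  rw [Finset.sum_const, nsmul_eq_mul]
  have hcard : ((((subs t.1).filter (fun be => ∑ s, be s = l)).card : ℕ) : ℝ) ≤ 2 ^ J := by
    have h1 := (Finset.card_filter_le (subs t.1) (fun be => ∑ s, be s = l)).trans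
      (subs_card_le t.1)
    rw [hJ1] at h1
    exact_mod_cast h1
  have h2J : (2 : ℝ) ^ J ≤ Real.exp (J * 1) := by
    rw [Real.exp_nat_mul]
    apply pow_le_pow_left₀ (by norm_num)
    have := Real.add_one_le_exp (1 : ℝ)
    linarith
  calc ((((subs t.1).filter (fun be => ∑ s, be s = l)).card : ℕ) : ℝ) *
        (2 ^ J * (Real.exp A * Real.exp B))
      ≤ Real.exp (J * 1) * (Real.exp (J * 1) * (Real.exp A * Real.exp B)) := by
        refine mul_le_mul (hcard.trans h2J) ?_ (by positivity) (Real.exp_pos _).le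
        exact mul_le_mul_of_nonneg_right h2J (by positivity)
    _ = Real.exp (J * 1 + (J * 1 + (A + B))) := by
        rw [Real.exp_add, Real.exp_add, Real.exp_add]
    _ ≤ _ := by
        apply Real.exp_le_exp.2
        rw [hA, hB]
        have q1 : (J : ℝ) * 1 ≤ J * (2 * Real.log (2 + (j : ℝ))) :=
          mul_le_mul_of_nonneg_left hlj (by linarith)
        have q2 : 0 ≤ Real.log (2 + (j : ℝ)) := by linarith
        have q3 : 0 ≤ Real.log (2 + (n : ℝ) / W) := by linarith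
        have q4 : 0 ≤ (J : ℝ) * Real.log (2 + (j : ℝ)) := mul_nonneg (by linarith) q2
        have q5 : 0 ≤ ((W : ℝ) + J) * Real.log (2 + (n : ℝ) / W) :=
          mul_nonneg (by linarith) q3
        have q6 : 0 ≤ (6 * (d0 : ℝ) + 4 * Real.log K0) * (J * Real.log (2 + (j : ℝ))) :=
          mul_nonneg (by linarith) q4
        nlinarith

end H36D
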