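import Pool.Agent.Lib.H36D.S2
import Pool.Agent.Lib.H53M.SC

/-!
# H36D, chunk S4 (S/M): denominators

PROOF. `SC_I`, `SC_mul`, `SC_toQ`, `SC_pow`, `SC_D` of Lib/H53M/SC.lean (see `Ft_int` there): `SC_I (D N) N (h s)`, so `SC_I ((D N)^(Σ g)) N (Hm h g)` (product over `s`).
For `be ∈ subs t.1` the coefficient `j ≤ N` of `Hm h be` times `(D N)^(Σ be)` and the coefficient `n ≤ N` of `toQ (Lv W i) * Hm h (t.1 - be)` times
`(D N)^(Σ (t.1 - be))` are integers, and `Σ (t.1 - be) + Σ be = J` (`sum_sub_subs`, `mem_Ix`).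
`gg_int`: sum over `t`. `gg_zero`: `l = 0` forces `be = 0`, `Hm h 0 = 1`, `bc t.1 0 = 1`, `t.1 - 0 = t.1`. `gg_big`: `l > J`: the filter is empty (`Σ be ≤ Σ al = J`).
-/

namespace H36D

open H53M PowerSeries Finset

private theorem S4_hm {r : ℕ} {h : Fin r → PowerSeries ℚ} {C : ℝ} {κ : ℕ} {D : ℕ → ℕ}
    (H : Hyp h C κ D) (N : ℕ) (g : Fin r → ℕ) : SC_I ((D N) ^ (∑ s, g s)) N (Hm h g) := by
  classical
  have hh : ∀ s, SC_I (D N) N (h s) := by
    intro s k hk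
    obtain ⟨z, hz⟩ := H.den s k
    obtain ⟨c, hc⟩ := SC_D D H.dvd hk
    refine ⟨c * z, ?_⟩
    rw [hc]
    push_cast
    rw [← hz]
    ring
  have key : ∀ S : Finset (Fin r), SC_I ((D N) ^ (∑ s ∈ S, g s)) N (∏ s ∈ S, h s ^ g s) := by
    intro S
    induction S using Finset.induction_on with
    | empty => simpa using SC_one N
    | insert a S ha ih =>
      rw [Finset.sum_insert ha, Finset.prod_insert ha, pow_add]
      exact SC_mul (SC_pow (hh a) _) ih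
  exact key _

theorem gc_int {r : ℕ} {h : Fin r → PowerSeries ℚ} {C : ℝ} {κ : ℕ} {D : ℕ → ℕ}
    (H : Hyp h C κ D) (J W : ℕ) (t : (Fin r → ℕ) × ℕ) (ht : t ∈ Ix r J W) (N n j l : ℕ)
    (hn : n ≤ N) (hj : j ≤ N) : ∃ z : ℤ, ((D N : ℚ)) ^ J * gc h W n j l t = z := by
  have hJ := (mem_Ix.mp ht).1
  have h1 : ∀ be : Fin r → ℕ, be ∈ (subs t.1).filter (fun be => ∑ s, be s = l) →
      ∃ z : ℤ, ((D N : ℚ)) ^ J * ((-1) ^ l * (bc t.1 be : ℚ) *
        (coeff j (Hm h be) * coeff n (toQ (Lv W t.2) * Hm h (t.1 - be)))) = z := by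
    intro be hbe
    have hb := (Finset.mem_filter.mp hbe).1
    have hs := sum_sub_subs hb
    obtain ⟨z1, hz1⟩ := S4_hm H N be j hj
    obtain ⟨z2, hz2⟩ := SC_mul (SC_toQ N (Lv W t.2)) (S4_hm H N (t.1 - be)) n hn
    refine ⟨(-1) ^ l * (bc t.1 be : ℤ) * (z1 * z2), ?_⟩
    have e : ((D N : ℚ)) ^ J = ((D N : ℚ)) ^ (∑ s, (t.1 - be) s) * ((D N : ℚ)) ^ (∑ s, be s) := by
      rw [← pow_add, hs, hJ]
    rw [e]
    push_cast at hz1 hz2 ⊢
    rw [← hz1, ← hz2]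
    ring
  choose! z hz using h1
  refine ⟨∑ be ∈ (subs t.1).filter (fun be => ∑ s, be s = l), z be, ?_⟩
  unfold gc
  rw [Finset.mul_sum]
  push_cast
  exact Finset.sum_congr rfl fun be hbe => hz be hbe

theorem gg_int {r : ℕ} {h : Fin r → PowerSeries ℚ} {C : ℝ} {κ : ℕ} {D : ℕ → ℕ}
    (H : Hyp h C κ D) (J W : ℕ) (x : (Fin r → ℕ) × ℕ → ℤ) (N n j l : ℕ)
    (hn : n ≤ N) (hj : j ≤ N) : ∃ z : ℤ, ((D N : ℚ)) ^ J * gg h J W x n j l = z := by
  have h1 : ∀ t : (Fin r → ℕ) × ℕ, t ∈ Ix r J W →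
      ∃ z : ℤ, ((D N : ℚ)) ^ J * gc h W n j l t = z := fun t ht =>
    gc_int H J W t ht N n j l hn hj
  choose! z hz using h1
  refine ⟨∑ t ∈ Ix r J W, x t * z t, ?_⟩
  unfold gg
  rw [Finset.mul_sum]
  push_cast
  refine Finset.sum_congr rfl fun t ht => ?_
  rw [← hz t ht]
  ring

theorem gg_zero {r : ℕ} (h : Fin r → PowerSeries ℚ) (J W : ℕ) (x : (Fin r → ℕ) × ℕ → ℤ)
    (n : ℕ) : gg h J W x n 0 0 = coeff n (Ah h J W x) := by
  unfold gg Ah
  rw [map_sum]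
  refine Finset.sum_congr rfl fun t _ => ?_
  rw [map_smul, smul_eq_mul]
  congr 1
  have hf : (subs t.1).filter (fun be => ∑ s, be s = 0) = {0} := by
    ext be
    rw [Finset.mem_filter, mem_subs, Finset.mem_singleton]
    constructor
    · rintro ⟨_, h2⟩
      funext s
      exact (Finset.sum_eq_zero_iff.mp h2) s (Finset.mem_univ s)
    · rintro rfl
      exact ⟨fun s => Nat.zero_le _, by simp⟩
  unfold gc
  rw [hf, Finset.sum_singleton]
  simp [bc, Hm]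

theorem gg_big {r : ℕ} (h : Fin r → PowerSeries ℚ) (J W : ℕ) (x : (Fin r → ℕ) × ℕ → ℤ)
    (n j l : ℕ) (hl : J < l) : gg h J W x n j l = 0 := by
  unfold gg
  refine Finset.sum_eq_zero fun t ht => ?_
  have hJ := (mem_Ix.mp ht).1
  have hf : (subs t.1).filter (fun be => ∑ s, be s = l) = ∅ := by
    refine Finset.filter_eq_empty_iff.mpr fun be hbe hs => ?_
    have h1 := sum_sub_subs hbe
    omega
  unfold gc
  rw [hf, Finset.sum_empty, mul_zero]

end H36D
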