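import Pool.Agent.Lib.H36D.S1
import Pool.Agent.Lib.H36D.S3
import Pool.Agent.Lib.H36D.S4
import Pool.Agent.Lib.H53M.SG

/-!
# H36D, chunk S5 (L): the auxiliary function

PROOF. Put `c1 = 16 CT² (r-1)! J^4 / J^r`, `W = ⌈c1 X⌉`. Conditions: `Q` = the `(n,j,l)` with `n ≤ CT J X`, `j ≤ CT J`, `l ≤ J`:
`card Q = (CT J X + 1)(CT J + 1)(J + 1) ≤ 8 CT² J³ X`; `card Ix ≥ J^(r-1)/(r-1)! * c1 X = 16 CT² J³ X`. `siegel_fin` with
`R = D(K X)^J` (`gc_int`, `N = K X`) and `E = exp (C4 (W+J) log (2 + K/c1) + C4 J log (2+K))` (`gc_bound`; `n ≤ K X`, `W ≥ c1 X`). The bound of `z`: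
`|z| ≤ D(KX)^J card(Ix) max|x| E ≤ (D(KX)^J card(Ix) E)²`; `log card(Ix) ≤ r log (J+1) + log (W+1)` and `J log D(KX)` are `≤ c1 X` for `X` large,
`W + J ≤ 2 c1 X`, `2 + K/c1 ≤ 2 + K J^r` (`c1 ≥ J^(-r)`), `1 ≤ 2 log (2 + K J^r)`, `C4 J log (2+K) ≤ c1 X`. So `C0 = const * CT² (r-1)! C4`.
ONE SCALE: the only condition on the denominators is `log D(K X) ≤ η X` for the given `X` (`η = c1 / J`, `X₀` depend on `r, C, κ, CT, J, K` only).
-/

namespace H36D

open H53M PowerSeries Finset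

/-- The choice of `X₀`. -/
private theorem S5_large (c1 : ℝ) (hc1 : 0 < c1) (A B : ℝ) : ∃ X₀ : ℕ, ∀ X ≥ X₀,
    1 ≤ X ∧ 1 ≤ c1 * (X : ℝ) ∧ A ≤ c1 * X ∧ B + Real.log (2 * c1 * X + 2) ≤ c1 * X := by
  have h1 : ∀ᶠ X : ℕ in Filter.atTop, 1 / c1 ≤ (X : ℝ) :=
    tendsto_natCast_atTop_atTop.eventually_ge_atTop _
  have h2 : ∀ᶠ X : ℕ in Filter.atTop, A / c1 ≤ (X : ℝ) :=
    tendsto_natCast_atTop_atTop.eventually_ge_atTop _
  have h3 : ∀ᶠ X : ℕ in Filter.atTop, (B + Real.log (2 * c1 + 2)) / (c1 / 2) ≤ (X : ℝ) :=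
    tendsto_natCast_atTop_atTop.eventually_ge_atTop _
  have h4 := SG_W 0 c1 hc1
  have h5 := Filter.eventually_ge_atTop 1
  obtain ⟨X₀, h⟩ := Filter.eventually_atTop.1
    (h1.and (h2.and (h3.and (h4.and (h5 : ∀ᶠ X : ℕ in Filter.atTop, 1 ≤ X)))))
  refine ⟨X₀, fun X hX => ?_⟩
  obtain ⟨a1, a2, a3, a4, a5⟩ := h X hX
  rw [div_le_iff₀ hc1] at a1 a2
  rw [div_le_iff₀ (by positivity)] at a3
  have hX0 : (0 : ℝ) ≤ X := Nat.cast_nonneg X
  refine ⟨a5, by linarith, by linarith, ?_⟩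
  have e1 : Real.log (2 * c1 * X + 2) ≤ Real.log (2 * c1 + 2) + Real.log ((X : ℝ) + 1) := by
    rw [← Real.log_mul (by positivity) (by positivity)]
    apply Real.log_le_log (by positivity)
    nlinarith
  have e2 : Real.log ((0 : ℝ) + 1) = 0 := by rw [zero_add, Real.log_one]
  rw [e2] at a4
  nlinarith

private theorem S5_pow (J r : ℕ) (hJ : 1 ≤ J) (hr : 1 ≤ r) :
    (J : ℝ) ^ (r - 1) * ((J : ℝ) ^ 4 / (J : ℝ) ^ r) = (J : ℝ) ^ 3 := by
  obtain ⟨s, rfl⟩ : ∃ s, r = s + 1 := ⟨r - 1, by omega⟩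
  have hJ0 : (J : ℝ) ≠ 0 := by
    have : J ≠ 0 := by omega
    exact_mod_cast this
  rw [Nat.add_sub_cancel]
  field_simp
  ring

theorem aux (r : ℕ) (hr : 1 ≤ r) (C : ℝ) (κ CT : ℕ) (hCT : 1 ≤ CT) :
    ∃ C0 : ℝ, 1 ≤ C0 ∧ ∀ J K : ℕ, 1 ≤ J → CT * J ≤ K → ∃ η : ℝ, 0 < η ∧ ∃ X₀ : ℕ,
      ∀ (h : Fin r → PowerSeries ℚ) (D : ℕ → ℕ), Hyp h C κ D → ∀ p : ℕ, p.Prime →
      ∀ X ≥ X₀, Real.log (D (K * X)) ≤ η * X →
        ∃ (W : ℕ) (x : (Fin r → ℕ) × ℕ → ℤ), 1 ≤ W ∧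
          (W : ℝ) ≤ C0 * ((J : ℝ) ^ 4 / (J : ℝ) ^ r) * X ∧
          (∃ t ∈ Ix r J W, ¬ (p : ℤ) ∣ x t) ∧
          (∀ n j l : ℕ, n + j * X ≤ CT * J * X → gg h J W x n j l = 0) ∧
          ∀ n j l : ℕ, n ≤ K * X → j ≤ K →
            ∃ z : ℤ, ((D (K * X) : ℚ)) ^ J * gg h J W x n j l = z ∧
              |(z : ℝ)| ≤ Real.exp (C0 * ((J : ℝ) ^ 4 / (J : ℝ) ^ r) *
                Real.log (2 + K * (J : ℝ) ^ r) * X) := by
  obtain ⟨C4, hC4, hg⟩ := gc_bound r C κ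
  have hF : (1 : ℝ) ≤ ((r - 1).factorial : ℝ) := by
    exact_mod_cast Nat.factorial_pos (r - 1)
  have hCTr : (1 : ℝ) ≤ CT := by exact_mod_cast hCT
  have hCF : (1 : ℝ) ≤ (CT : ℝ) ^ 2 * ((r - 1).factorial : ℝ) :=
    one_le_mul_of_one_le_of_one_le (one_le_pow₀ hCTr) hF
  refine ⟨288 * C4 * ((CT : ℝ) ^ 2 * ((r - 1).factorial : ℝ)), by nlinarith, ?_⟩
  intro J K hJ hK
  have hJr : (1 : ℝ) ≤ J := by exact_mod_cast hJ
  have hJ0 : (0 : ℝ) < J := by linarith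
  have hK1 : 1 ≤ K := le_trans (Nat.mul_pos hCT hJ) hK
  have hKr : (1 : ℝ) ≤ K := by exact_mod_cast hK1
  obtain ⟨A, hA⟩ : ∃ A : ℝ, A = (J : ℝ) ^ 4 / (J : ℝ) ^ r := ⟨_, rfl⟩
  have hA0 : 0 < A := by rw [hA]; positivity
  have hAJ : 1 ≤ A * (J : ℝ) ^ r := by
    rw [hA, div_mul_cancel₀ _ (by positivity)]
    exact one_le_pow₀ hJr
  obtain ⟨CF, hCFe⟩ : ∃ CF : ℝ, CF = (CT : ℝ) ^ 2 * ((r - 1).factorial : ℝ) := ⟨_, rfl⟩
  rw [← hCFe] at hCF
  rw [← hA, ← hCFe]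
  obtain ⟨c1, hc1e⟩ : ∃ c1 : ℝ, c1 = 16 * CF * A := ⟨_, rfl⟩
  have hc1A : A ≤ c1 := by rw [hc1e]; nlinarith
  have hc1 : 0 < c1 := by linarith
  obtain ⟨L, hL⟩ : ∃ L : ℝ, L = Real.log (2 + K * (J : ℝ) ^ r) := ⟨_, rfl⟩
  have hL1 : 1 ≤ 2 * L := by rw [hL]; exact SA2_log _ (by positivity)
  obtain ⟨X₀, hX₀⟩ := S5_large c1 hc1 (J + C4 * J * Real.log (2 + K)) (r * Real.log (J + 1))
  refine ⟨c1 / J, by positivity, X₀, fun h D H p hp X hX hDX => ?_⟩
  obtain ⟨hX1, h1c, hAc, hBc⟩ := hX₀ X hX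
  have hXr : (1 : ℝ) ≤ X := by exact_mod_cast hX1
  obtain ⟨W, hW⟩ : ∃ W : ℕ, W = ⌈c1 * (X : ℝ)⌉₊ := ⟨_, rfl⟩
  have hW1 : c1 * (X : ℝ) ≤ W := by rw [hW]; exact Nat.le_ceil _
  have hW2 : (W : ℝ) < c1 * X + 1 := by
    rw [hW]; exact Nat.ceil_lt_add_one (by positivity)
  have hWpos : (1 : ℝ) ≤ W := by linarith
  have hWn : 1 ≤ W := by exact_mod_cast hWpos
  have hlogK : 0 ≤ Real.log (2 + (K : ℝ)) := Real.log_nonneg (by linarith)
  have hlk : 0 ≤ C4 * J * Real.log (2 + (K : ℝ)) := by positivity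
  -- the bound for the coefficients
  obtain ⟨E, hE⟩ : ∃ E : ℝ, E = Real.exp (C4 * ((W : ℝ) + J) * L +
    C4 * J * Real.log (2 + (K : ℝ))) := ⟨_, rfl⟩
  have hE1 : 1 ≤ E := by
    rw [hE]
    apply Real.one_le_exp
    have : 0 ≤ L := by linarith
    positivity
  have hgE : ∀ t ∈ Ix r J W, ∀ n j l : ℕ, n ≤ K * X → j ≤ K →
      |((gc h W n j l t : ℚ) : ℝ)| ≤ E := by
    intro t ht n j l hn hj
    refine (hg h H.growth J W hJ hWn t ht n j l).trans ?_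
    rw [hE]
    apply Real.exp_le_exp.2
    have hn' : (n : ℝ) ≤ K * X := by exact_mod_cast hn
    have hj' : (j : ℝ) ≤ K := by exact_mod_cast hj
    have e1 : (n : ℝ) / W ≤ K * (J : ℝ) ^ r := by
      rw [div_le_iff₀ (by linarith)]
      have e2 : (K : ℝ) * X ≤ K * (J : ℝ) ^ r * (c1 * X) := by
        have e3 : (1 : ℝ) ≤ (J : ℝ) ^ r * c1 := by
          have : A * (J : ℝ) ^ r ≤ c1 * (J : ℝ) ^ r :=
            mul_le_mul_of_nonneg_right hc1A (by positivity)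
          linarith
        have e4 : (K : ℝ) * X * 1 ≤ (K : ℝ) * X * ((J : ℝ) ^ r * c1) :=
          mul_le_mul_of_nonneg_left e3 (by positivity)
        linarith
      have e5 : K * (J : ℝ) ^ r * (c1 * X) ≤ K * (J : ℝ) ^ r * W :=
        mul_le_mul_of_nonneg_left hW1 (by positivity)
      linarith
    have e6 : Real.log (2 + (n : ℝ) / W) ≤ L := by
      rw [hL]
      apply Real.log_le_log (by positivity)
      linarith
    have e7 : Real.log (2 + (j : ℝ)) ≤ Real.log (2 + (K : ℝ)) :=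
      Real.log_le_log (by positivity) (by linarith)
    have e8 : C4 * ((W : ℝ) + J) * Real.log (2 + (n : ℝ) / W) ≤ C4 * ((W : ℝ) + J) * L :=
      mul_le_mul_of_nonneg_left e6 (by positivity)
    have e9 : C4 * J * Real.log (2 + (j : ℝ)) ≤ C4 * J * Real.log (2 + (K : ℝ)) :=
      mul_le_mul_of_nonneg_left e7 (by positivity)
    linarith
  -- the conditions
  obtain ⟨Q, hQ⟩ : ∃ Q : Finset (ℕ × ℕ × ℕ), Q = (range (CT * J * X + 1)) ×ˢ
    ((range (CT * J + 1)) ×ˢ (range (J + 1))) := ⟨_, rfl⟩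
  have hmemQ : ∀ c ∈ Q, c.1 ≤ CT * J * X ∧ c.2.1 ≤ CT * J ∧ c.2.2 ≤ J := by
    intro c hc
    rw [hQ, mem_product, mem_product, mem_range, mem_range, mem_range] at hc
    omega
  have hQcard : (Q.card : ℝ) ≤ 8 * (CT : ℝ) ^ 2 * (J : ℝ) ^ 3 * X := by
    rw [hQ, card_product, card_product, card_range, card_range, card_range]
    push_cast
    have a1 : (CT : ℝ) * J * X + 1 ≤ 2 * (CT * J * X) := by
      have : (1 : ℝ) ≤ CT * J * X :=
        one_le_mul_of_one_le_of_one_le (one_le_mul_of_one_le_of_one_le hCTr hJr) hXr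
      linarith
    have a2 : (CT : ℝ) * J + 1 ≤ 2 * (CT * J) := by
      have : (1 : ℝ) ≤ CT * J := one_le_mul_of_one_le_of_one_le hCTr hJr
      linarith
    have a3 : (J : ℝ) + 1 ≤ 2 * J := by linarith
    calc ((CT : ℝ) * J * X + 1) * (((CT : ℝ) * J + 1) * (J + 1))
        ≤ (2 * (CT * J * X)) * ((2 * (CT * J)) * (2 * J)) := by
          apply mul_le_mul a1 _ (by positivity) (by positivity)
          exact mul_le_mul a2 a3 (by positivity) (by positivity)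
      _ = 8 * (CT : ℝ) ^ 2 * (J : ℝ) ^ 3 * X := by ring
  have hIcard : 16 * (CT : ℝ) ^ 2 * (J : ℝ) ^ 3 * X ≤ ((Ix r J W).card : ℝ) := by
    refine le_trans ?_ (card_Ix_ge r J W hr)
    have b1 : (J : ℝ) ^ (r - 1) ≤ ((J : ℝ) + 1) ^ (r - 1) :=
      pow_le_pow_left₀ hJ0.le (by linarith) _
    have b2 : (J : ℝ) ^ (r - 1) / ((r - 1).factorial : ℝ) * (c1 * X) ≤
        ((J : ℝ) + 1) ^ (r - 1) / ((r - 1).factorial : ℝ) * ((W : ℝ) + 1) := by
      apply mul_le_mul _ (by linarith) (by positivity) (by positivity)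
      exact div_le_div_of_nonneg_right b1 (by positivity)
    refine le_trans (le_of_eq ?_) b2
    have b3 := S5_pow J r hJ hr
    rw [← hA] at b3
    rw [hc1e, hCFe]
    have hF0 : ((r - 1).factorial : ℝ) ≠ 0 := by positivity
    field_simp
    rw [← b3]
  have hQS : 2 * Q.card ≤ (Ix r J W).card := by
    have : (2 : ℝ) * (Q.card : ℝ) ≤ ((Ix r J W).card : ℝ) := by linarith
    exact_mod_cast this
  have hQ1 : 1 ≤ Q.card := by
    rw [hQ, card_product, card_product, card_range, card_range, card_range]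
    exact Nat.mul_pos (by omega) (Nat.mul_pos (by omega) (by omega))
  have hCK : CT * J * X ≤ K * X := Nat.mul_le_mul_right X hK
  have hKX : K ≤ K * X := Nat.le_mul_of_pos_right K hX1
  obtain ⟨R, hR⟩ : ∃ R : ℕ, R = D (K * X) ^ J := ⟨_, rfl⟩
  have hR0 : 0 < R := by rw [hR]; exact Nat.pow_pos (H.pos _)
  obtain ⟨x, hx1, hx2, hx3⟩ := siegel_fin (Ix r J W) Q hQ1 hQS
    (fun c t => gc h W c.1 c.2.1 c.2.2 t) R hR0 E hE1
    (fun c hc t ht => by
      obtain ⟨c1', c2', _⟩ := hmemQ c hc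
      obtain ⟨z, hz⟩ := gc_int H J W t ht (K * X) c.1 c.2.1 c.2.2 (by omega) (by omega)
      refine ⟨z, ?_⟩
      rw [hR]
      push_cast
      exact hz)
    (fun c hc t ht => by
      obtain ⟨c1', c2', _⟩ := hmemQ c hc
      exact hgE t ht c.1 c.2.1 c.2.2 (by omega) (by omega)) p hp
  obtain ⟨U, hU⟩ : ∃ U : ℝ, U = ((Ix r J W).card : ℝ) := ⟨_, rfl⟩
  rw [← hU] at hx2
  have hR1 : (1 : ℝ) ≤ R := by exact_mod_cast hR0
  have hU0 : 0 < U := by
    have : (0 : ℝ) < 16 * (CT : ℝ) ^ 2 * (J : ℝ) ^ 3 * X := by positivity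
    rw [hU]
    linarith
  refine ⟨W, x, hWn, ?_, hx1, ?_, ?_⟩
  · have e1 : c1 * X + 1 ≤ 2 * (c1 * X) := by linarith
    have e2 : 2 * (c1 * X) ≤ 288 * C4 * CF * A * X := by
      rw [hc1e]
      have e3 : 32 * (CF * A * X) ≤ 288 * C4 * (CF * A * X) :=
        mul_le_mul_of_nonneg_right (by linarith) (by positivity)
      linarith
    linarith
  · intro n j l hn
    by_cases hl : l ≤ J
    · have h2 : j * X ≤ CT * J * X := by omega
      have hj : j ≤ CT * J := Nat.le_of_mul_le_mul_right h2 hX1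
      have hmem : ((n, j, l) : ℕ × ℕ × ℕ) ∈ Q := by
        rw [hQ, mem_product, mem_product, mem_range, mem_range, mem_range]
        simp only
        omega
      exact hx3 _ hmem
    · exact gg_big h J W x n j l (by omega)
  · intro n j l hn hj
    obtain ⟨z, hz⟩ := gg_int H J W x (K * X) n j l hn (by omega)
    refine ⟨z, hz, ?_⟩
    have hz' : (z : ℝ) = (R : ℝ) * ((gg h J W x n j l : ℚ) : ℝ) := by
      have h1 : ((z : ℚ) : ℝ) = ((((D (K * X) : ℚ)) ^ J * gg h J W x n j l : ℚ) : ℝ) := by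
        rw [hz]
      rw [Rat.cast_intCast] at h1
      rw [h1, hR]
      push_cast
      ring
    have hgg : |((gg h J W x n j l : ℚ) : ℝ)| ≤ U * ((U * (R * E)) * E) := by
      unfold gg
      rw [Rat.cast_sum]
      refine (abs_sum_le_sum_abs _ _).trans ?_
      have h1 : ∀ t ∈ Ix r J W, |(((x t : ℚ) * gc h W n j l t : ℚ) : ℝ)| ≤ (U * (R * E)) * E := by
        intro t ht
        rw [Rat.cast_mul, Rat.cast_intCast, abs_mul]
        exact mul_le_mul (hx2 t) (hgE t ht n j l hn hj) (abs_nonneg _) (by positivity)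
      refine (sum_le_sum h1).trans (le_of_eq ?_)
      rw [sum_const, nsmul_eq_mul, ← hU]
    have hzb : |(z : ℝ)| ≤ (U * (R * E)) ^ 2 := by
      rw [hz', abs_mul, abs_of_nonneg (by linarith : (0 : ℝ) ≤ R)]
      calc (R : ℝ) * |((gg h J W x n j l : ℚ) : ℝ)| ≤ R * (U * ((U * (R * E)) * E)) :=
            mul_le_mul_of_nonneg_left hgg (by linarith)
        _ = (U * (R * E)) ^ 2 := by ring
    refine hzb.trans ?_
    -- logarithms
    have hUexp : U ≤ Real.exp (c1 * X) := by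
      have h1 : U ≤ ((J : ℝ) + 1) ^ r * ((W : ℝ) + 1) := by
        rw [hU]
        exact_mod_cast card_Ix_le r J W
      have h2 : (W : ℝ) + 1 ≤ 2 * c1 * X + 2 := by nlinarith
      have h3 : ((J : ℝ) + 1) ^ r * ((W : ℝ) + 1) ≤ ((J : ℝ) + 1) ^ r * (2 * c1 * X + 2) :=
        mul_le_mul_of_nonneg_left h2 (by positivity)
      have h4 : ((J : ℝ) + 1) ^ r * (2 * c1 * X + 2) =
          Real.exp (r * Real.log (J + 1) + Real.log (2 * c1 * X + 2)) := by
        rw [Real.exp_add, Real.exp_log (by positivity), Real.exp_nat_mul,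
          Real.exp_log (by positivity)]
      rw [h4] at h3
      exact h1.trans (h3.trans (Real.exp_le_exp.2 hBc))
    have hRexp : (R : ℝ) ≤ Real.exp (c1 * X) := by
      have h2 : (0 : ℝ) < D (K * X) := by exact_mod_cast H.pos _
      have h3 : (R : ℝ) = Real.exp (J * Real.log (D (K * X))) := by
        rw [Real.exp_nat_mul, Real.exp_log h2, hR]
        push_cast
        rfl
      rw [h3]
      apply Real.exp_le_exp.2
      calc (J : ℝ) * Real.log (D (K * X)) ≤ J * (c1 / J * X) :=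
            mul_le_mul_of_nonneg_left hDX hJ0.le
        _ = c1 * X := by
          field_simp
    have hEexp : E ≤ Real.exp (3 * C4 * (c1 * X) * L + c1 * X) := by
      rw [hE]
      apply Real.exp_le_exp.2
      have h1 : (W : ℝ) + J ≤ 3 * (c1 * X) := by linarith
      have h2 : C4 * ((W : ℝ) + J) * L ≤ C4 * (3 * (c1 * X)) * L := by
        apply mul_le_mul_of_nonneg_right _ (by linarith)
        exact mul_le_mul_of_nonneg_left h1 (by linarith)
      have h3 : C4 * J * Real.log (2 + (K : ℝ)) ≤ c1 * X := by linarith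
      linarith
    have hprod : U * (R * E) ≤ Real.exp (c1 * X + (c1 * X + (3 * C4 * (c1 * X) * L + c1 * X))) := by
      rw [Real.exp_add, Real.exp_add]
      apply mul_le_mul hUexp _ (by positivity) (Real.exp_pos _).le
      exact mul_le_mul hRexp hEexp (by linarith) (Real.exp_pos _).le
    have hsq : (U * (R * E)) ^ 2 ≤
        Real.exp (c1 * X + (c1 * X + (3 * C4 * (c1 * X) * L + c1 * X))) ^ 2 :=
      pow_le_pow_left₀ (by positivity) hprod 2
    refine hsq.trans ?_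
    rw [← Real.exp_nat_mul]
    apply Real.exp_le_exp.2
    rw [← hL]
    have hcX : 0 ≤ c1 * X := by positivity
    have h1 : c1 * X ≤ 2 * (C4 * (c1 * X) * L) := by
      have h2 : c1 * X * 1 ≤ c1 * X * (2 * L) := mul_le_mul_of_nonneg_left hL1 hcX
      have h3 : 1 * (c1 * X * (2 * L)) ≤ C4 * (c1 * X * (2 * L)) :=
        mul_le_mul_of_nonneg_right hC4 (by nlinarith)
      linarith
    have h4 : 288 * C4 * CF * A * L * X = 18 * (C4 * (c1 * X) * L) := by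
      rw [hc1e]
      ring
    rw [h4]
    push_cast
    linarith

end H36D
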